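import Mathlib
import Pool.Agent.TH216.MF.MotM

/-!
# The strong monodromy conjecture for the motivic zeta functions of all polynomials with affinely
# independent exponents

Let `f = ∑_j c_j x ^ (m j) ∈ ℂ[x_1, …, x_n]` with `c_j ≠ 0` and at least two monomials, whose exponent
vectors are affinely independent. There is NO condition on the exponents: `B1`-facets, non-isolated
singularities and monomial factors are all allowed. Then every pole of the motivic zeta function
of `f`, and of the zeta functions counting only the arcs with origin in a constructible set `W`, is a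
root of the Bernstein-Sato polynomial `b_f`.

Method. Expanding the powers of `f`, the functional equation of `b_f` becomes an identity in the ring
`ℂ[X_1, …, X_k]` (`X_j` counts the `j`-th monomial). It is turned into a multiplicative identity
for the series `∑_u q ^ (-|u|) F (⟨u, m_1⟩ - t, …, ⟨u, m_k⟩ - t)`, `F` a difference polynomial applied to
the Heaviside function of the orthant, for every integer `q ≥ 2`. On the other side, the classes of
the zero sets of the face polynomials in the tori satisfy linear relations, one for each variable
which has exponent `1` in one monomial of a face and does not occur in the others; so the zeta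
function is a combination of universal series in `q ^ (-1)` and `T`. The multiplicative identity
shows that for every `q ≥ 2` these universal series have no poles on `log |T| / log q = σ` if
`b_f(-σ) ≠ 0`, hence that the factors `1 - q ^ (-a) T ^ N` with `a / N = σ` cancel identically, and `q`
can be replaced by `𝕃`.
-/

set_option autoImplicit false

namespace Pool.Agent.Results.MP_b07157_ag.AffinelyIndependent

open MvPolynomial Pool.Agent.W428.MOT Pool.Agent.W375.MG Pool.Agent.W425.MM

/-- **The strong monodromy conjecture (Q1) for the motivic zeta functions of all polynomials with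
affinely independent exponents.**

`zetaOrd f W` is the motivic zeta function `𝕃 ^ (- n) ∑_l [{φ : φ(0) ∈ W, ord f(φ) = l}] (𝕃 ^ (- n) T) ^ l`
of the arcs with origin in `W`; `W = Set.univ` gives the global motivic zeta function of `f`.
`IsBFunction f b` says that `b(s) f ^ s = P(s) f ^ (s + 1)` for a differential operator `P(s)` in the
Weyl algebra, polynomial in `s`; the Bernstein-Sato polynomial `b_f` is one of these polynomials
`b`. -/
theorem result {n r : ℕ} (hr : 2 ≤ r) (m : Fin r → Fin n → ℕ)
    (hm : AffineIndependent ℚ (fun (j : Fin r) (i : Fin n) => (m j i : ℚ)))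
    (c : Fin r → ℂ) (hc : ∀ j, c j ≠ 0) (f : MvPolynomial (Fin n) ℂ)
    (hf : f = ∑ j, C (c j) * ∏ i, X i ^ m j i) (W : Set (Pt ℂ (Fin n))) (hW : Constr W)
    (s₀ : ℚ) (hs : IsPole (zetaOrd f W) s₀)
    (b : Polynomial ℂ) (hb : Pool.Agent.H628R4.TP.IsBFunction f b) :
    b.eval (s₀ : ℂ) = 0 := by
  obtain ⟨S, hS, hz, -⟩ := Pool.Agent.TH216.MC.ind_mot (k := ℂ) hr m hm c hc
  have hf' : f = Pool.Agent.W425.ND.spa m c := hf
  subst hf'
  obtain ⟨p, hp, rfl⟩ := Pool.Agent.W425.GN.pole_in _ W S (fun p hp => (hS p hp).2.1)
    (hz ℂ W {a | a ≠ 0} hW good_units) s₀ hs
  have h1 := (hS p hp).2.2 b hb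
  push_cast
  exact h1

end Pool.Agent.Results.MP_b07157_ag.AffinelyIndependent
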