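import Mathlib
import Pool.Agent.TH216.G3.HDG

/-!
# The strong monodromy conjecture for generic coefficients in at most three variables

Let `n ≤ 3` and let `f = ∑_j c_j x ^ (v j) + h ∈ ℂ[x_1, …, x_n]`, where `h` is an ARBITRARY polynomial
over a subfield `F` of `ℂ` (`F = ℂ` is allowed) whose exponents are in the convex hull of the `v j`,
and the coefficients `c_j` are generic: `g(c) ≠ 0` for a certain nonzero polynomial `g` with
coefficients in `F`. There is no condition on the convex hull of the `v j`, the Newton polytope of
`f`, except that it is not `{0}`; for instance the `v j` are its vertices, and only the coefficients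
at the vertices have to be generic. The singularities need not be isolated, `f(0) = 0` is not
assumed, and all `B1`-facets, compact or not, are allowed. Then every pole of the motivic zeta
function of `f`, also if only the arcs with origin in a constructible set `W` are counted, is a root
of the Bernstein-Sato polynomial of `f`.

Method. If the `c_j` are algebraically independent over `F`, the functional equation of the
Bernstein-Sato polynomial gives an identity in a polynomial ring with one variable for every `v j`.
It is extended to the further monomials (a filtration by the convex hull of the `v j`) and turned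
into a multiplicative identity for the series `∑_u q ^ (-|u|) F (⟨u, m_1⟩ - t, …, ⟨u, m_k⟩ - t)`, `F` a
difference polynomial applied to the Heaviside function of the orthant, for every integer `q ≥ 2`.
On the other side, the classes of the zero sets of the face polynomials in the tori satisfy linear
relations, one for each variable which has exponent `1` in one monomial of a face and does not occur
in the others, and one for every pair of variables `x_i`, `x_k` such that `f` is in the ideal
`(x_i, x_k)` (the part of `f` which is linear in `x_i`, `x_k` gives the classes over the locus
`x_i = x_k = 0`); so the zeta function is a combination of universal series in `q ^ (-1)` and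
`T`, one for every set `J` of variables which vanish at the origin of the arcs. The multiplicative
identity shows that for every `q ≥ 2` these universal series have no poles on
`log |T| / log q = σ` if `-σ` is not a root, hence that the factors `1 - q ^ (-a) T ^ N` with
`a / N = σ` cancel identically, and `q` can be replaced by `𝕃`. For this the exponents are projected
to the variables in `J`, where a vertex can be the image of several exponents: for a facet of the
projection with several exponents over a vertex which has exponent `1` in a variable, and for
the quadrangles with the vertices `(b, 0, 0)`, `(0, 0, b)`, `(1, 1, 0)`, `(0, 1, 1)`, `b ≥ 2`, the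
candidate pole is shown to be a root; the other facets are simplices, or `B1` in a direction which is
constant around a vertex. Gröbner bases in the Weyl algebra over `F(c_1, …, c_r)` compare the generic
Bernstein-Sato polynomial with the one of a single member.
-/

set_option autoImplicit false

namespace Pool.Agent.Results.MP_b07157_ag.GenericThreeVariables

open MvPolynomial Pool.Agent.W428.MOT Pool.Agent.W375.MG Pool.Agent.W425.MM Pool.Agent.TH216.HD

/-- **The strong monodromy conjecture (Q1) for the motivic zeta functions of the polynomials
`f = ∑_j c_j x ^ (v j) + h` in at most three variables with generic coefficients `c_j`; all Newton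
polytopes.**

`poly v c h` is the polynomial `f = ∑_j c_j x ^ (v j) + h`. `InHull v w` says that the exponent `w` is
in the convex hull of the `v j`.

`zetaOrd f W` is the motivic zeta function `𝕃 ^ (- n) ∑_l [{φ : φ(0) ∈ W, ord f(φ) = l}] (𝕃 ^ (- n) T) ^ l`
of the arcs with origin in `W`; `W = Set.univ` gives the global motivic zeta function of `f`.
`IsBFunction f b` says that `b(s) f ^ s = P(s) f ^ (s + 1)` for a differential operator `P(s)` in the
Weyl algebra, polynomial in `s`; the Bernstein-Sato polynomial `b_f` is one of these polynomials
`b`. -/
theorem result {n r : ℕ} (hn : n ≤ 3) (F : Subfield ℂ) (v : Fin r → Fin n → ℕ)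
    (hv : Function.Injective v) (hv1 : ∃ j, v j ≠ 0)
    (h : MvPolynomial (Fin n) F) (hh : ∀ w ∈ h.support, InHull v w) :
    ∃ g : MvPolynomial (Fin r) F, g ≠ 0 ∧ ∀ c : Fin r → ℂ, aeval c g ≠ 0 →
      ∀ W : Set (Pt ℂ (Fin n)), Constr W →
      ∀ s₀ : ℚ, IsPole (zetaOrd (poly v c h) W) s₀ →
      ∀ b : Polynomial ℂ, Pool.Agent.H628R4.TP.IsBFunction (poly v c h) b →
        b.eval (s₀ : ℂ) = 0 := by
  obtain ⟨g, hg, hgz⟩ := genM3 (F := F) hn v hv hv1 h hh
  refine ⟨g, hg, fun c hc W hW s₀ hs b hb => ?_⟩
  obtain ⟨S, hS, hz, -⟩ := hgz ℂ c hc
  have h2 := hz ℂ W {a | a ≠ 0} hW good_units
  rw [Algebra.algebraMap_self, MvPolynomial.map_id] at h2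
  obtain ⟨p, hp, rfl⟩ := Pool.Agent.W425.GN.pole_in _ W S (fun p hp => (hS p hp).2.1) h2 s₀ hs
  have h1 := (hS p hp).2.2 b hb
  push_cast
  exact h1

end Pool.Agent.Results.MP_b07157_ag.GenericThreeVariables
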