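import Mathlib
import Pool.Agent.TH216.LX.F2
import Pool.Agent.W425.GN.MotL

/-!
# The local strong monodromy conjecture for the motivic zeta function for generic coefficients

Let `f = ∑_j c_j x ^ (v j) + h ∈ ℂ[x_1, …, x_n]`, where `h` is an ARBITRARY polynomial over a subfield
`F` of `ℂ` (`F = ℂ` is allowed), whose exponents are in the Newton polyhedron `conv {v j} + ℝ_{≥ 0} ^ n`,
and the coefficients `c_j` are generic: `g(c) ≠ 0` for a certain nonzero polynomial `g` with
coefficients in `F`. So for given `h` only the coefficients at the vertices `v j` have to be generic.
If `n ≤ 3` and the `v j` are the vertices of the Newton polyhedron, there is no further condition.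
If `n = 4` and the `v j` are the vertices, we suppose that every facet is a simplex or `B1` in some
direction, or that its candidate pole `- |a| / N_a` is `-1` or comes also from a facet which contains a
suitable simplex which is not B1. In general we suppose for the other candidate poles that the facets
through a common face, if the face is not a simplex and they all have this candidate pole, are `B1` in
a common direction; for instance that the Newton polyhedron is simplicial and the `v j` are its
vertices. Then every pole of the local motivic zeta function of `f` at the origin is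
a root of the local Bernstein-Sato polynomial `b_{f,0}`.

Method. If the `c_j` are algebraically independent over `F`, the functional equation of the
Bernstein-Sato polynomial gives an identity in a polynomial ring with one variable for every `v j`.
It is turned into a multiplicative identity for the series
`∑_u q ^ (-|u|) F (⟨u, v_1⟩ - t, …, ⟨u, v_k⟩ - t)`, `F` a difference polynomial applied to the
Heaviside function of the orthant, for every integer `q ≥ 2`. On the other side, for the arcs with
origin `0` only the points `u` with all `u i > 0` occur, which see only exponents of `h` in the convex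
hull of the `v j`; and the classes of the zero sets of the face polynomials in the tori satisfy
linear relations, one for each variable which has exponent `1` in one monomial of a face and does not
occur in the others; so the zeta function is a combination of universal series in `q ^ (-1)` and
`T`. The multiplicative identity shows that for every `q ≥ 2` these universal series have no poles
on `log |T| / log q = σ` if `-σ` is not a root, hence that the factors `1 - q ^ (-a) T ^ N` with
`a / N = σ` cancel identically, and `q` can be replaced by `𝕃`. Gröbner bases in the Weyl algebra over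
`F(c_1, …, c_r)` compare the generic Bernstein-Sato polynomial with the one of a single member.

For `n = 3` there is one kind of compact facet which is neither a simplex nor contains a triangle
which is not B1, the quadrangle with the vertices `(b, 0, 0)`, `(0, 0, b)`, `(1, 1, 0)`, `(0, 1, 1)`,
`b ≥ 2`, up to the order of the coordinates. It is not B1 in any direction, and its candidate pole
`-(b + 1) / b` is a root: the polynomial identity is evaluated on the line where all its linear
factors vanish, which meets the zero set of the further terms to higher order than the one of the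
denominator.
-/

set_option autoImplicit false

namespace Pool.Agent.Results.MP_b07157_ag.GenericVerticesLocal

open MvPolynomial Pool.Agent.W428.MOT Pool.Agent.W375.MG Pool.Agent.W425.MM
open Pool.Agent.TH216.HD Pool.Agent.TH216.HDL Pool.Agent.TH216.HDF

/-- **The local strong monodromy conjecture (Q2) for the motivic zeta functions of the polynomials
`f = ∑_j c_j x ^ (v j) + h` with generic coefficients `c_j`: all Newton polyhedra for `n ≤ 3`, simplices
and `B1`-facets for `n = 4`, simplices and `B1`-facets with compatible directions for `n ≥ 5`.**

`poly v c h` is the polynomial `f = ∑_j c_j x ^ (v j) + h`. `InPoly v w` says that `w` is in the Newton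
polyhedron `conv {v j} + ℝ_{≥ 0} ^ n`. `Vertices v` says that the `v j` are the vertices of this
polyhedron: no `v j` is in the Newton polyhedron of the other `v k`.

`HypF v` says that one of the following holds:
(1) `n ≤ 3` and `Vertices v`;
(2) `n = 4`, `Vertices v`, and every ray `a` of the normal fan of the Newton polyhedron (`IsRay v a`)
with `N_a := ordA v a = min_j ⟨a, v j⟩ > 0` satisfies (i), (ii) or (iii);
(3) every such ray `a` satisfies (i), (ii) or (iv), where
* (i) `|a| = N_a` (the candidate pole is `-1`);
* (ii) `|a| / N_a = |a'| / N_{a'}` for some `a' ∈ ℕ ^ n` with `N_{a'} > 0` and `NonB1 v True a'`: there is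
  a set `J` of `#{i | a' i ≠ 0}` elements with `⟨a', v j⟩ = N_{a'}` for `j ∈ J` such that the vectors
  `(v j i)_{a' i ≠ 0}`, `j ∈ J`, are linearly independent, such that no variable `x_i` with
  `a' i ≠ 0` occurs in exactly one of the monomials `x ^ (v j)`, `j ∈ J`, and there with exponent `1`,
  and such that (a condition only if some `a' i = 0`) for all `l` with `⟨a', v l⟩ = N_{a'}`, if `v l`
  agrees with `∑_{j ∈ J} c_j (v j)` in the coordinates `i` with `a' i ≠ 0`, then
  `∑_j c_j s(v j) ≤ s(v l)`, `s(w) = ∑_{a' i = 0} w_i`;
* (iii) the facet of `a` is a simplex (`SimpL v a`): the vectors `(v j i)_{a i ≠ 0}`, for the `j` with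
  `⟨a, v j⟩ = N_a`, are linearly independent; or it is B1 in some direction `i` (`B1L v i a`): `a i ≠ 0`,
  and exactly one of the monomials `x ^ (v j)` with `⟨a, v j⟩ = N_a` is divisible by `x_i`, and it is
  not divisible by `x_i ^ 2`;
* (iv) `LocF v σ` for `σ = lev v a = |a| / N_a`. For a set `A` of variables and a set `τ` of indices `j`
  consider the rays `a'` with `N_{a'} > 0`, `a' i = 0` for `i ∉ A` and `⟨a', v j⟩ = N_{a'}` for `j ∈ τ`
  (`RayAt v A τ a'`). If there are such rays and `|a'| / N_{a'} = σ` for all of them, if every variable
  `x_i`, `i ∈ A`, occurs in some `x ^ (v j)`, `j ∈ τ`, and if the vectors `(v j i)_{i ∈ A}`, `j ∈ τ`, are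
  linearly dependent (`Dep v A τ`), then there is one `i` such that the facets of all these rays are B1
  in the direction `i`.

`zetaOrd f W` is the motivic zeta function `𝕃 ^ (- n) ∑_l [{φ : φ(0) ∈ W, ord f(φ) = l}] (𝕃 ^ (- n) T) ^ l`
of the arcs with origin in `W`; `W = {0}` gives the local motivic zeta function of `f` at the origin.
`IsLocalBFunction f b` says that `b(s) f ^ s = P(s) f ^ (s + 1)` for a differential operator `P(s)`
with (formal, in particular convergent) power series at the origin as coefficients. The
Bernstein-Sato polynomial `b_{f,0}` is the monic one of least degree of these polynomials (for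
convergent power series). -/
theorem result {n r : ℕ} (hr : 0 < r) (F : Subfield ℂ) (v : Fin r → Fin n → ℕ)
    (hv : Function.Injective v) (hv0 : ∀ j, v j ≠ 0)
    (h : MvPolynomial (Fin n) F) (hh : ∀ w ∈ h.support, InPoly v w)
    (hL : HypF v) :
    ∃ g : MvPolynomial (Fin r) F, g ≠ 0 ∧ ∀ c : Fin r → ℂ, aeval c g ≠ 0 →
      ∀ s₀ : ℚ, IsPole (zetaOrd (poly v c h) {0}) s₀ →
      ∀ b : Polynomial ℂ, Pool.Agent.H628R4.TP.IsLocalBFunction (poly v c h) b →
        b.eval (s₀ : ℂ) = 0 := by
  obtain ⟨g, hg, hgz⟩ := Pool.Agent.TH216.LX.genFP (F := F) hr v hv hv0 h hh hL
  refine ⟨g, hg, fun c hc s₀ hs b hb => ?_⟩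
  obtain ⟨S, hS, hz⟩ := hgz ℂ c hc
  have hW : Constr ({0} : Set (Pt ℂ (Fin n))) := by
    have h1 := constr_pt (K := ℂ) (0 : Fin n → ℂ)
    have e : ({fun i => algebraMap ℂ (AlgebraicClosure ℂ) ((0 : Fin n → ℂ) i)} :
        Set (Pt ℂ (Fin n))) = {0} := by
      congr 1
      funext i
      simp
    rwa [e] at h1
  have h2 := hz ℂ {0} {a | a ≠ 0} hW good_units (fun z hz i => by
    rw [Set.mem_singleton_iff.1 hz]
    rfl)
  rw [Algebra.algebraMap_self, MvPolynomial.map_id] at h2
  obtain ⟨p, hp, rfl⟩ := Pool.Agent.W425.GN.pole_in _ {0} S (fun p hp => (hS p hp).2.1) h2 s₀ hs
  have h1 := (hS p hp).2.2 b hb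
  push_cast
  exact h1

end Pool.Agent.Results.MP_b07157_ag.GenericVerticesLocal
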