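import Mathlib
import Pool.Agent.TH216.MF.HDM

/-!
# The strong monodromy conjecture for the motivic zeta function for generic coefficients:
# simplices and B1-facets

Let `f = ∑_j c_j x ^ (v j) + h ∈ ℂ[x_1, …, x_n]`, where `h` is an ARBITRARY polynomial over a subfield
`F` of `ℂ`, whose exponents are in the Newton polyhedron `conv {v j} + ℝ_{≥ 0} ^ n`, and the
coefficients `c_j` are generic: `g(c) ≠ 0` for a certain nonzero polynomial `g` with coefficients in
`F`. So only the coefficients at the vertices of the Newton polyhedron (and as many others as one wants)
have to be generic. For every candidate pole `- |a| / N_a ≠ -1` either one of its facets contains a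
simplex which is not B1, or at every `v j` the facets of the candidate pole through `v j` are
simplices or `B1`-facets in a common direction. In particular this holds if on every facet the `v j`
are linearly independent (in the coordinates with `a i ≠ 0`) and the exponents of `h` on it are in
the convex hull of the `v j` (the simplicial case). Then every pole of the motivic zeta function of
`f`, and of the zeta functions counting only the arcs with origin in a constructible set `W`, is a
root of the Bernstein-Sato polynomial `b_f`.

Method. If the `c_j` are algebraically independent over `F`, the functional equation of the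
Bernstein-Sato polynomial gives an identity in a polynomial ring with one variable for every `v j`.
It is extended to the further monomials (a filtration by the convex hull of the `v j`) and turned
into a multiplicative identity for the series `∑_u q ^ (-|u|) F (⟨u, m_1⟩ - t, …, ⟨u, m_k⟩ - t)`, `F` a
difference polynomial applied to the Heaviside function of the orthant, for every integer `q ≥ 2`.
On the other side, the classes of the zero sets of the face polynomials in the tori satisfy linear
relations, one for each variable which has exponent `1` in one monomial of a face and does not occur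
in the others; so the zeta function is a combination of universal series in `q ^ (-1)` and `T`. The
multiplicative identity shows that for every `q ≥ 2` these universal series have no poles on
`log |T| / log q = σ` if `-σ` is not a root, hence that the factors `1 - q ^ (-a) T ^ N` with `a / N = σ`
cancel identically, and `q` can be replaced by `𝕃`. Gröbner bases in the Weyl algebra over
`F(c_1, …, c_r)` compare the generic Bernstein-Sato polynomial with the one of a single member.
-/

set_option autoImplicit false

namespace Pool.Agent.Results.MP_b07157_ag.SimplicialOrB1Facets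

open MvPolynomial Pool.Agent.W428.MOT Pool.Agent.W375.MG Pool.Agent.W425.MM Pool.Agent.TH216.HD

/-- **The strong monodromy conjecture (Q1) for the motivic zeta functions of the polynomials
`f = ∑_j c_j x ^ (v j) + h` with generic coefficients `c_j`; simplices, and `B1`-facets in a direction
depending on the vertex.**

`poly v c h` is the polynomial `f = ∑_j c_j x ^ (v j) + h`. `InPoly v w` says that `w` is in the Newton
polyhedron `conv {v j} + ℝ_{≥ 0} ^ n`.

`Hyp False v h` says that for every ray `a` of the normal fan of the Newton polyhedron (`IsRay v a`)
with `N_a := ordA v a = min_j ⟨a, v j⟩ > 0` one of the following holds: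
* `|a| = N_a` (the candidate pole is `-1`);
* `|a| / N_a = |a'| / N_{a'}` for some `a' ∈ ℕ ^ n` with `N_{a'} > 0` and `NonB1 v False a'`: there is a
  set `J` of `#{i | a' i ≠ 0}` elements with `⟨a', v j⟩ = N_{a'}` for `j ∈ J` such that the vectors
  `(v j i)_{a' i ≠ 0}`, `j ∈ J`, are linearly independent and such that no variable `x_i` with
  `a' i ≠ 0` occurs in exactly one of the monomials `x ^ (v j)`, `j ∈ J`, and there with exponent `1`;
* `LocS v h σ` for `σ = lev v a = |a| / N_a`: for every `v j1` there is a variable `x_i` such that each of the rays
  `a'` with `N_{a'} > 0`, `|a'| / N_{a'} = σ` and `⟨a', v j1⟩ = N_{a'}` (the facets through `v j1`)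
  satisfies one of
  - its facet is a simplex (`Simp v h a'`): the vectors `(v j i)_{a' i ≠ 0}`, for the `j` with
    `⟨a', v j⟩ = N_{a'}`, are linearly independent, and the exponents `w` of `h` with
    `⟨a', w⟩ = N_{a'}` are in the convex hull of the `v j` (automatic if all `a' i ≠ 0`);
  - it is B1 in the direction `i` (`B1Dir v h i a'`): `a' i ≠ 0`, and among the
    monomials of the face of `a'` (the `x ^ (v j)` and the monomials of `h` of minimal `a'`-weight
    `N_{a'}`) exactly one is divisible by `x_i`; this one is some `x ^ (v j0)` with `v j0 i = 1`
    (it may also occur in `h`).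

`zetaOrd f W` is the motivic zeta function `𝕃 ^ (- n) ∑_l [{φ : φ(0) ∈ W, ord f(φ) = l}] (𝕃 ^ (- n) T) ^ l`
of the arcs with origin in `W`; `W = Set.univ` gives the global motivic zeta function of `f`.
`IsBFunction f b` says that `b(s) f ^ s = P(s) f ^ (s + 1)` for a differential operator `P(s)` in the
Weyl algebra, polynomial in `s`; the Bernstein-Sato polynomial `b_f` is one of these polynomials
`b`. -/
theorem result {n r : ℕ} (hr : 0 < r) (F : Subfield ℂ) (v : Fin r → Fin n → ℕ)
    (hv : Function.Injective v) (hv0 : ∀ j, v j ≠ 0)
    (h : MvPolynomial (Fin n) F) (hh : ∀ w ∈ h.support, InPoly v w) (hL : Hyp False v h) :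
    ∃ g : MvPolynomial (Fin r) F, g ≠ 0 ∧ ∀ c : Fin r → ℂ, aeval c g ≠ 0 →
      ∀ W : Set (Pt ℂ (Fin n)), Constr W →
      ∀ s₀ : ℚ, IsPole (zetaOrd (poly v c h) W) s₀ →
      ∀ b : Polynomial ℂ, Pool.Agent.H628R4.TP.IsBFunction (poly v c h) b →
        b.eval (s₀ : ℂ) = 0 := by
  obtain ⟨g, hg, hgz⟩ := genM (F := F) hr v hv hv0 h hh hL
  refine ⟨g, hg, fun c hc W hW s₀ hs b hb => ?_⟩
  obtain ⟨S, hS, hz, -⟩ := hgz ℂ c hc
  have h2 := hz ℂ W {a | a ≠ 0} hW good_units
  rw [Algebra.algebraMap_self, MvPolynomial.map_id] at h2
  obtain ⟨p, hp, rfl⟩ := Pool.Agent.W425.GN.pole_in _ W S (fun p hp => (hS p hp).2.1) h2 s₀ hs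
  have h1 := (hS p hp).2.2 b hb
  push_cast
  exact h1

end Pool.Agent.Results.MP_b07157_ag.SimplicialOrB1Facets
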